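import Pool.Agent.H505R4.DiffMain
import Pool.Agent.H505R4.Obstruct

set_option autoImplicit false

/-!
# Rough pairs `n, n + h` with an even number of prime factors in any given set

The difference `h = 24 k`, the lower bound: `Pool.Agent.H505R4.main_pairs`; the other even differences:
`Pool.Agent.H505R4.obstruction` (both by helper505 of an earlier round, never handed in).
-/

namespace Pool.Agent.Results.MP_68a45e_nt.EvenRoughPairs

open Classical in
/-- Part 1. For every `ε > 0` there are `η > 0` and `X₀` such that for every set `S` of natural numbers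
(for instance of primes), every `X ≥ X₀` and every positive multiple `h ≤ X ^ η` of `24` at least
`X ^ (1 / 2 - ε)` integers `1 ≤ n ≤ X` are such that all prime factors of `n` and of `n + h` are larger
than `X ^ η` and the number of prime factors of `n (n + h)` belonging to `S`, counted with multiplicity,
is even.

Part 2. For every even `h` not divisible by `24` there is a set `S` such that this number is odd for
all `n ≥ 1` with `n (n + h)` prime to `6`. -/
theorem result :
    (∀ ε : ℝ, 0 < ε → ∃ η : ℝ, 0 < η ∧ ∃ X₀ : ℕ, ∀ (S : Set ℕ) (h X : ℕ), X₀ ≤ X → 1 ≤ h →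
      24 ∣ h → (h : ℝ) ≤ (X : ℝ) ^ η →
      (X : ℝ) ^ (1 / 2 - ε) ≤ (({n : ℕ | 1 ≤ n ∧ n ≤ X ∧
        (∀ p : ℕ, p.Prime → p ∣ n * (n + h) → (X : ℝ) ^ η < p) ∧
        Even ((n * (n + h)).primeFactorsList.countP (fun p => decide (p ∈ S)))} :
          Set ℕ).ncard : ℝ)) ∧
    (∀ h : ℕ, Even h → ¬ 24 ∣ h → ∃ S : Set ℕ, ∀ n : ℕ, 1 ≤ n → Nat.Coprime (n * (n + h)) 6 →
      Odd ((n * (n + h)).primeFactorsList.countP (fun p => decide (p ∈ S)))) := by
  refine ⟨fun ε hε => ?_, fun h he h24 => Pool.Agent.H505R4.obstruction h he h24⟩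
  obtain ⟨η, hη, X₀, H⟩ := Pool.Agent.H505R4.main_pairs ε hε
  refine ⟨η, hη, X₀, fun S h X hX h1 h24 hhX => ?_⟩
  obtain ⟨k, rfl⟩ := h24
  have hk : 1 ≤ k := by omega
  have hkX : (k : ℝ) ≤ (X : ℝ) ^ η := by
    refine le_trans ?_ hhX
    push_cast
    have : (0 : ℝ) ≤ k := Nat.cast_nonneg k
    linarith
  exact H (Pool.Agent.H505R4.cnt S) (Pool.Agent.H505R4.cnt_mul S) k X hX hk hkX

end Pool.Agent.Results.MP_68a45e_nt.EvenRoughPairs
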