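import Pool.Agent.H560R3.GB.Tup3
import Pool.Agent.H560R3.GB.Defs

/-!
# The asymptotic formula of Hardy and Littlewood for prime tuples, for almost all vectors of shifts
taken from arbitrary families of nearly minimal additive energy

Definitions used: `Pool.Agent.H373R2.T7.singZ a z`: the partial product over the primes `p ≤ z` of
`(1 - ν(p) / p) / (1 - 1 / p) ^ (k + 1)`, where `ν(p)` is the number of `r < p` for which `p` divides
`r (r + a 1) ... (r + a k)`; `Pool.Agent.H373R2.T7.tupleCount a N`: the sum of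
`log p * ∏ i, log (p + a i)` over the primes `p ≤ N` for which all `p + a i` are primes;
`Pool.Agent.H373R2.T7.Admissible a`: for every prime `p` there is an `r` such that `p` divides neither
`r` nor any `r + a i`; `Pool.Agent.H560R3.GB.primeTuples a N`: the number of primes `p ≤ N` for which
all `p + a i` are primes; `Pool.Agent.H560R3.GB.energy h x s`: the number of solutions of
`s (v 1) + ... + s (v h) = s (w 1) + ... + s (w h)` with entries in `{1, ..., x}`;
`Pool.Agent.H560R3.GB.reps h x s t`: the number of representations `t = s (v 1) + ... + s (v h)`.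
-/

set_option autoImplicit false

namespace Pool.Agent.Results.MP_68a45e_nt.FamiliesOfShifts

open Finset Pool.Agent.H560R3.GB
open Pool.Agent.H373R2.T7 (singZ tupleCount Admissible)

/-- The formula of Hardy and Littlewood for the shifts `a 1, ..., a k` and the primes up to `N`: the
singular series converges, its sum `S` predicts the weighted number of prime tuples with an error of
at most `N / log ^ U N`, and, if the shifts are admissible, `S` is positive and `S N / log ^ (k + 1) N`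
predicts the number of prime tuples with a relative error of at most `ε`. -/
def Holds {k : ℕ} (ε : ℝ) (U N : ℕ) (a : Fin k → ℕ) : Prop :=
  ∃ S : ℝ, Filter.Tendsto (fun z => singZ (fun i => (a i : ℤ)) z) Filter.atTop (nhds S) ∧
    |tupleCount (fun i => (a i : ℤ)) N - S * N| ≤ (N : ℝ) / Real.log N ^ U ∧
    (Admissible (fun i => (a i : ℤ)) → 0 < S ∧
      |(primeTuples a N : ℝ) - S * (N / Real.log N ^ (k + 1))| ≤ ε * (S * (N / Real.log N ^ (k + 1))))

open Classical in
/-- The number of vectors `m`, with `1 ≤ m i ≤ x i`, for which `Holds` fails for the shifts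
`s i (m i)`. -/
noncomputable def exceptions {k : ℕ} (ε : ℝ) (U N : ℕ) (x : Fin k → ℕ) (s : Fin k → ℕ → ℕ) : ℕ :=
  ((Fintype.piFinset (fun i => Icc 1 (x i))).filter
    (fun m : Fin k → ℕ => ¬ Holds ε U N (fun i => s i (m i)))).card

lemma energy_eq (h x : ℕ) (s : ℕ → ℕ) :
    Pool.Agent.H373R2.T7.energy h x (fun m => (s m : ℤ)) = energy h x s := by
  unfold energy Pool.Agent.H373R2.T7.energy
  congr 1
  apply filter_congr
  intro q _
  change (∑ i, ((s (q.1 i) : ℕ) : ℤ) = ∑ i, ((s (q.2 i) : ℕ) : ℤ)) ↔ _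
  constructor
  · intro h; exact_mod_cast h
  · intro h; exact_mod_cast h

lemma energy_le (h x J : ℕ) (s : ℕ → ℕ) (hJ : ∀ t, reps h x s t ≤ J) : energy h x s ≤ x ^ h * J := by
  unfold energy
  rw [card_filter, sum_product]
  calc ∑ v ∈ Fintype.piFinset fun _ : Fin h => Icc 1 x, ∑ w ∈ Fintype.piFinset fun _ : Fin h => Icc 1 x,
        (if ∑ i, s (v i) = ∑ i, s (w i) then 1 else 0) ≤
      ∑ _v ∈ Fintype.piFinset fun _ : Fin h => Icc 1 x, J := by
        apply sum_le_sum
        intro v _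
        rw [← card_filter]
        refine le_trans (le_of_eq ?_) (hJ (∑ i, s (v i)))
        unfold reps
        congr 1
        apply filter_congr
        intro w _
        exact eq_comm
    _ = x ^ h * J := by
        rw [sum_const, Fintype.card_piFinset, prod_const, card_univ, Fintype.card_fin, Nat.card_Icc,
          smul_eq_mul, Nat.add_sub_cancel]

open Classical in
lemma exceptions_zero {k : ℕ} (ε : ℝ) (U N : ℕ) (x : Fin k → ℕ) (s : Fin k → ℕ → ℕ) (i : Fin k) (hi : x i = 0) :
    exceptions ε U N x s = 0 := by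
  unfold exceptions
  rw [card_eq_zero, filter_eq_empty_iff]
  intro m hm
  have := mem_Icc.1 (Fintype.mem_piFinset.1 hm i)
  omega

theorem first (k h B C U : ℕ) (hk : 1 ≤ k) (hh : 1 ≤ h) (ε : ℝ) (hε : 0 < ε) :
    ∃ N₀ : ℕ, ∀ N : ℕ, N₀ ≤ N → ∀ (x : Fin k → ℕ) (s : Fin k → ℕ → ℕ),
      (∀ i, ∀ m ∈ Icc 1 (x i), s i m ≤ B * N) →
      (∀ i, (energy h (x i) (s i) : ℝ) * N ≤ Real.log N ^ C * (x i : ℝ) ^ (2 * h)) →
      (exceptions ε U N x s : ℝ) ≤ (∏ i, (x i : ℝ)) / Real.log N ^ U := by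
  classical
  obtain ⟨c, hc, hlow⟩ := Pool.Agent.H373R2.T7.singZ_low k
  obtain ⟨N₀, h0⟩ := ftuples_full k h B C (U + 1) hk hh
  obtain ⟨N₁, h1⟩ := tuple_transfer k B c ε hc hε
  obtain ⟨N₂, h2⟩ := Pool.Agent.H373R2.T7.ev_L' 1
  refine ⟨N₀ + N₁ + N₂ + 3, fun N hN x s hs hE => ?_⟩
  have hL := h2 N (by omega)
  have hL0 : 0 < Real.log (N : ℝ) := by linarith
  have hN0 : (0 : ℝ) ≤ N := Nat.cast_nonneg _
  by_cases hx : ∀ i, 1 ≤ x i
  swap
  · push Not at hx
    obtain ⟨i, hi⟩ := hx
    rw [exceptions_zero ε U N x s i (by omega), Nat.cast_zero]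
    apply div_nonneg
    · apply prod_nonneg
      intro i _
      exact Nat.cast_nonneg _
    · positivity
  have h3 := h0 N (by omega) x s hx hs (fun i => by rw [energy_eq]; exact hE i)
  have hp0 : 0 ≤ ∏ i, (x i : ℝ) := prod_nonneg fun i _ => Nat.cast_nonneg _
  refine le_trans ?_ (h3.trans ?_)
  · unfold exceptions
    have hsub : (Fintype.piFinset (fun i => Icc 1 (x i))).filter
        (fun m : Fin k → ℕ => ¬ Holds ε U N (fun i => s i (m i))) ⊆
        (Fintype.piFinset (fun i => Icc 1 (x i))).filter (fun m : Fin k → ℕ =>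
        ¬ ∃ S : ℝ, Filter.Tendsto (fun z => singZ (fun i => (s i (m i) : ℤ)) z) Filter.atTop (nhds S) ∧
        |tupleCount (fun i => (s i (m i) : ℤ)) N - S * N| ≤ (N : ℝ) / Real.log N ^ (U + 1)) := by
      intro m hm
      rw [mem_filter] at hm ⊢
      refine ⟨hm.1, fun hcon => hm.2 ?_⟩
      obtain ⟨S, hS, hS2⟩ := hcon
      refine ⟨S, hS, hS2.trans ?_, fun hadm => ?_⟩
      · apply div_le_div_of_nonneg_left hN0 (by positivity)
        exact pow_le_pow_right₀ hL (by omega)
      · have hcS : c ≤ S := ge_of_tendsto' hS (hlow _ hadm)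
        refine ⟨lt_of_lt_of_le hc hcS, ?_⟩
        apply h1 N (by omega) (fun i => s i (m i)) (fun i => ?_) S hcS
        · refine hS2.trans ?_
          apply div_le_div_of_nonneg_left hN0 hL0
          exact le_self_pow₀ hL (by omega)
        · exact hs i (m i) (Fintype.mem_piFinset.1 hm.1 i)
    exact_mod_cast card_le_card hsub
  · apply div_le_div_of_nonneg_left hp0 (by positivity)
    exact pow_le_pow_right₀ hL (by omega)

/-- Let `k, h ≥ 1`, `B`, `C`, `U` and `ε > 0` be fixed, and let `N` be large.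

* Let `s i 1, ..., s i (x i)`, for `i = 1, ..., k`, be arbitrary families of natural numbers in
  `[0, B N]`, each of which has an additive energy of order `h` of at most `log ^ C N` times
  `(x i) ^ (2 h) / N`. Then the formula of Hardy and Littlewood holds for the shifts
  `s 1 (m 1), ..., s k (m k)` and the primes up to `N`, for all but at most a proportion
  `1 / log ^ U N` of the vectors `m` in the box `1 ≤ m i ≤ x i`.
* In particular this holds if no integer has more than `J` representations as a sum of `h` members of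
  one of the families (`B_h[J]`-families), and `(x i) ^ h ≥ N / log ^ C N`. -/
theorem result (k h B C U : ℕ) (hk : 1 ≤ k) (hh : 1 ≤ h) (ε : ℝ) (hε : 0 < ε) :
    (∃ N₀ : ℕ, ∀ N : ℕ, N₀ ≤ N → ∀ (x : Fin k → ℕ) (s : Fin k → ℕ → ℕ),
      (∀ i, ∀ m ∈ Icc 1 (x i), s i m ≤ B * N) →
      (∀ i, (energy h (x i) (s i) : ℝ) * N ≤ Real.log N ^ C * (x i : ℝ) ^ (2 * h)) →
      (exceptions ε U N x s : ℝ) ≤ (∏ i, (x i : ℝ)) / Real.log N ^ U) ∧
    (∀ J : ℕ, ∃ N₀ : ℕ, ∀ N : ℕ, N₀ ≤ N → ∀ (x : Fin k → ℕ) (s : Fin k → ℕ → ℕ),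
      (∀ i, ∀ m ∈ Icc 1 (x i), s i m ≤ B * N) →
      (∀ i, ∀ t, reps h (x i) (s i) t ≤ J) →
      (∀ i, (N : ℝ) ≤ Real.log N ^ C * (x i : ℝ) ^ h) →
      (exceptions ε U N x s : ℝ) ≤ (∏ i, (x i : ℝ)) / Real.log N ^ U) := by
  refine ⟨first k h B C U hk hh ε hε, fun J => ?_⟩
  obtain ⟨N₀, h0⟩ := first k h B (C + 1) U hk hh ε hε
  obtain ⟨N₁, h1⟩ := Pool.Agent.H373R2.T7.ev_L' (J + 1)
  refine ⟨N₀ + N₁ + 1, fun N hN x s hs hJ hx => ?_⟩
  apply h0 N (by omega) x s hs
  intro i
  have hL := h1 N (by omega)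
  have hJ0 : (0 : ℝ) ≤ J := Nat.cast_nonneg _
  have hN0 : (0 : ℝ) ≤ N := Nat.cast_nonneg _
  have hx0 : (0 : ℝ) ≤ (x i : ℝ) ^ h := by positivity
  have h2 : (energy h (x i) (s i) : ℝ) ≤ (x i : ℝ) ^ h * J := by exact_mod_cast energy_le h (x i) J (s i) (hJ i)
  have hL0 : 0 ≤ Real.log N := by linarith
  calc (energy h (x i) (s i) : ℝ) * N ≤ ((x i : ℝ) ^ h * J) * (Real.log N ^ C * (x i : ℝ) ^ h) :=
        mul_le_mul h2 (hx i) hN0 (mul_nonneg hx0 hJ0)
    _ = J * (Real.log N ^ C * (x i : ℝ) ^ (2 * h)) := by ring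
    _ ≤ Real.log N * (Real.log N ^ C * (x i : ℝ) ^ (2 * h)) := by
        apply mul_le_mul_of_nonneg_right (by linarith) (by positivity)
    _ = Real.log N ^ (C + 1) * (x i : ℝ) ^ (2 * h) := by ring

end Pool.Agent.Results.MP_68a45e_nt.FamiliesOfShifts
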