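import Pool.Agent.H732R3.SubsumEv

/-!
# Near a subsum of any given vectors of shifts, for all large `x`

For every `k` there are `n` and `C` such that for all coprime `q ≥ 1` and `r`, all `v^(1), ..., v^(n) ∈ ℤ^k`
and `η > 0`, for all large `x` there are a nonempty `J` and distinct nonzero integers `a_i` with
`|a_i - ∑_{j ∈ J} v^(j)_i| ≤ C` for which at least `x ^ (1 - η)` primes `N ≤ x`, `N ≡ r (mod q)`, have all the
`N + q a_i` prime. For equal `v^(j) = v` the subsum is a multiple `d v`, `1 ≤ d ≤ n`.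

A quantitative version of the coloured Maynard-Tao theorem of the starting files
(`Pool.Agent.H362R2.CM`) is combined with the density Hales-Jewett theorem (`Pool.Agent.Helper903.DHJ`).
-/

namespace Pool.Agent.Results.MP_68a45e_nt.NearSubsums

open Filter

theorem result (k : ℕ) : ∃ n C : ℕ, ∀ (q : ℕ) (r : ℤ), 1 ≤ q → IsCoprime r (q : ℤ) →
    ∀ v : Fin n → Fin k → ℤ, ∀ η : ℝ, 0 < η → ∀ᶠ x : ℝ in atTop,
    ∃ J : Finset (Fin n), J.Nonempty ∧ ∃ a : Fin k → ℤ, Function.Injective a ∧ (∀ i, a i ≠ 0) ∧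
      (∀ i, |a i - ∑ j ∈ J, v j i| ≤ C) ∧ x ^ (1 - η) ≤
      ({N : ℕ | (N : ℝ) ≤ x ∧ N.Prime ∧ (N : ℤ) ≡ r [ZMOD q] ∧
        ∀ i, ∃ p : ℕ, p.Prime ∧ (p : ℤ) = N + q * a i}.ncard : ℝ) :=
  Pool.Agent.H732R3.BigQ.ipstarEv Pool.Agent.H732R3.BigQ.quarterEv k

end Pool.Agent.Results.MP_68a45e_nt.NearSubsums
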